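import Mathlib
import Pool.Agent.MP_d3a611_gt.Defs
import Pool.Agent.MP_d3a611_gt.Proof

set_option autoImplicit false

open Pool.Agent.MP_d3a611_gt

namespace Pool.Agent.Results.MP_d3a611_gt.HeisenbergNegCurv

/-- For every finite symmetric generating set `S` (with `e ∉ S`) of the discrete Heisenberg
group `H`, the Cayley graph `Cay(H, S)` has adjacent vertices `x, y` with negative
Ollivier–Ricci curvature. So no such Cayley graph of `H` has non-negative curvature. -/
theorem result (S : Finset Heisenberg) (h1 : (1 : Heisenberg) ∉ S)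
    (hsymm : ∀ s ∈ S, s⁻¹ ∈ S) (hgen : Subgroup.closure (S : Set Heisenberg) = ⊤) :
    ∃ x y : Heisenberg, (SimpleGraph.mulCayley (S : Set Heisenberg)).Adj x y ∧
      kappa (SimpleGraph.mulCayley (S : Set Heisenberg)) x y < 0 :=
  main S h1 hsymm hgen

end Pool.Agent.Results.MP_d3a611_gt.HeisenbergNegCurv
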